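import Pool.Agent.N522.EF.WM

/-!
# MP_a3c811_ag: independence of `ℓ` for the local Euler factors of motives

Let `p` be a prime number. For a motive `M` over `ℚ`, an integer `i` and a prime `ℓ ≠ p` let `V_ℓ` be the
Weil-Deligne representation of `V^i_ℓ(M)` at `p`, with Frobenius `Fr` and monodromy operator `N`. The
local Euler factor `det(1 - T Fr | V_ℓ^I)` is only concerned with `Fr` on the inertia invariants in the
kernel of `N`. The theorem:

1. The local Euler factors at `p` of all motives have rational coefficients and do not depend on `ℓ`, if
  and only if this is true for the Weil-Deligne representations themselves, up to semisimplification of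
  the Frobenius: for all motives, all elements `g` of the Weil group and all `k` the polynomial
  `det(1 - T g | ker N ^ k)` has rational coefficients and does not depend on `ℓ`. (The traces on all the
  `ker N ^ k` determine the Frobenius semisimple Weil-Deligne representation.)

2. If this is so, the weight-monodromy conjecture for `V_ℓ` holds for one `ℓ` if and only if it holds for
  all `ℓ`.

Proof: if `H^1(E)` is the cohomology of an elliptic curve with split multiplicative reduction at `p` then
`ker N` on `V_ℓ ⊗ Sym ^ t H^1(E)` is `ker N ^ (t + 1)` on `V_ℓ`. If `L` is a number field with one place
above `p`, corresponding to the subgroup of the Weil group which is generated by an element `g` of degree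
`f > 0` and an open subgroup of the inertia group that acts trivially on `V_ℓ`, then the trace of
`Fr ^ f` on the inertia invariants of `V_ℓ ⊗ h(Spec L)` is `f` times the trace of `g` on `ker N`. This
gives the traces of all elements `g` of positive degree, and the theorem of Cayley and Hamilton those of
the others.
-/

namespace Pool.Agent.Results.MP_a3c811_ag.EulerFactorsDetermine

open Pool.Agent.N522.EF

theorem result {W : Type} [Group W] [TopologicalSpace W] [IsTopologicalGroup W] (p : ℕ)
    [Fact p.Prime] (v : W →* Multiplicative ℤ) (hW : IsWeil v) (Fr : W) (hFr : (v Fr).toAdd = 1)
    (T : Motives W) (hT : IsMotives p v T) :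
    (EulerIndependence v Fr T ↔ WeilDeligneIndependence T) ∧
    (EulerIndependence v Fr T → ∀ M i l l',
      WeightMonodromy p Fr (T.V M i l) i → WeightMonodromy p Fr (T.V M i l') i) :=
  main hFr hW hT

end Pool.Agent.Results.MP_a3c811_ag.EulerFactorsDetermine
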